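import Pool.Agent.V11329.Vor.Prob

/-! The hyperbolic Poisson Voronoi graph does not have anchored thin triangles. -/

set_option autoImplicit false

namespace Pool.Agent.Results.MP_c20824_pr.NotAnchoredThin

open MeasureTheory UpperHalfPlane Pool.Agent.Y979.HV Pool.Agent.V11329.Vor

/-- For every intensity `lam > 0`, almost surely the dual graph of the hyperbolic Poisson Voronoi
tessellation is connected and for every vertex `x` and every `δ` there is a geodesic triangle with
vertex `x` that is not `δ`-thin. -/
theorem result {Ω : Type*} [MeasurableSpace Ω] (P : Measure Ω) [IsProbabilityMeasure P]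
    (lam : ℝ) (hlam : 0 < lam) (Q : Ω → Set ℍ) (hQ : IsPoissonProcess P lam Q) :
    ∀ᵐ ω ∂P, (Q ω).Nonempty ∧ (voronoiGraph (Q ω)).Connected ∧
      ∀ (x : Q ω) (δ : ℝ), ¬ AnchoredThin (voronoiGraph (Q ω)) x δ :=
  main_ae hQ hlam

end Pool.Agent.Results.MP_c20824_pr.NotAnchoredThin
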